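import Pool.Agent.Y762.CosetL
import Pool.Agent.H300R2.HWEuler
import Pool.Agent.H300R2.HWCount

/-!
# The characters of an abelian field as a coset
-/

set_option autoImplicit false
set_option maxHeartbeats 1000000

open Complex NumberField IsCyclotomicExtension.Rat
open H370 (zset mult NN Nd Ns)
open H300.HW (YY mem_YY card_YY LL)

namespace Pool.Agent.X293.LA

open Pool.Agent.Y762 (coset mem_coset Concl coset_L cH)

variable (n : ℕ) [NeZero n] (L : Type) [Field L] [NumberField L] [IsCyclotomicExtension {n} ℚ L]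

/-- the image of the Galois group of `L` over `F` -/
noncomputable def HF (F : IntermediateField ℚ L) : Subgroup (ZMod n)ˣ :=
  F.fixingSubgroup.map (galEquivZMod n L).toMonoidHom

theorem card_HF (F : IntermediateField ℚ L) : Nat.card (HF n L F) = Module.finrank F L := by
  have : IsGalois ℚ L := IsCyclotomicExtension.isGalois {n} ℚ L
  unfold HF
  rw [Subgroup.card_map_of_injective (f := (galEquivZMod n L).toMonoidHom)
    (galEquivZMod n L).injective]
  exact IsGalois.card_fixingSubgroup_eq_finrank F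

theorem mem_HF (F : IntermediateField ℚ L) (χ : DirichletCharacter ℂ n) :
    χ ∈ YY n L F ↔ χ ∈ coset (HF n L F) 1 := by
  rw [mem_YY, mem_coset]
  constructor
  · rintro h _ ⟨σ, hσ, rfl⟩
    rw [MulChar.one_apply_coe]
    exact h σ hσ
  · intro h σ hσ
    have := h (galEquivZMod n L σ) ⟨σ, hσ, rfl⟩
    rwa [MulChar.one_apply_coe] at this

open Classical in
theorem sum_YY (F : IntermediateField ℚ L) (f : DirichletCharacter ℂ n → ℝ) :
    ∑ x : YY n L F, f x = ∑ χ ∈ coset (HF n L F) 1, f χ := by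
  symm
  refine Finset.sum_subtype _ (fun χ => ?_) f
  exact (mem_HF n L F χ).symm

theorem card_coset (F : IntermediateField ℚ L) :
    (coset (HF n L F) 1).card = Module.finrank ℚ F := by
  classical
  have : IsGalois ℚ L := IsCyclotomicExtension.isGalois {n} ℚ L
  have h1 : (coset (HF n L F) 1).card = Nat.card (YY n L F) := by
    rw [Nat.card_eq_fintype_card, Fintype.card_eq_sum_ones, Finset.card_eq_sum_ones]
    refine Finset.sum_subtype _ (fun χ => ?_) _
    exact (mem_HF n L F χ).symm
  rw [h1, card_YY]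
  have h2 := F.fixingSubgroup.card_mul_index
  rw [IsGalois.card_fixingSubgroup_eq_finrank, IsGalois.card_aut_eq_finrank,
    ← Module.finrank_mul_finrank ℚ F L, mul_comm (Module.finrank ℚ F)] at h2
  exact Nat.eq_of_mul_eq_mul_left Module.finrank_pos h2

/-! ### Zeros of the product -/

open H300.HW (cnt strip line NN_eq Ns_le LF_eq upper_ne_one order_ne_top cnt_prod)

theorem finite_zset (χ : DirichletCharacter ℂ n) {T : ℝ} (hT : 0 < T) :
    (zset (DirichletCharacter.LFunction χ) T (2 * T)).Finite := by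
  have hc : χ.conductor ≠ 0 := χ.conductor_ne_zero
  have : NeZero χ.conductor := ⟨hc⟩
  have hg := H370.good_dirichlet χ.primitiveCharacter χ.primitiveCharacter_isPrimitive
  have h2 := H385.LF_zset_eq n (NeZero.pos n) χ T (2 * T) hT.le
  rw [LF_eq, LF_eq] at h2
  rw [h2]
  exact H370.zset_finite' hg T (2 * T) (by linarith)

theorem zset_strip (f : ℂ → ℂ) (T : ℝ) :
    {s : ℂ | s ∈ strip T (2 * T) ∧ f s = 0} = zset f T (2 * T) := by
  ext s
  simp only [zset, strip, Set.mem_ofPred_eq, and_assoc]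

theorem line_sub (f : ℂ → ℂ) (T : ℝ) :
    {s : ℂ | s ∈ line T (2 * T) ∧ f s = 0} ⊆ zset f T (2 * T) := by
  rintro s ⟨⟨h1, h2, h3⟩, h4⟩
  exact ⟨by rw [h1]; norm_num, by rw [h1]; norm_num, h2, h3, h4⟩

open Classical in
/-- the zeros of the product of the L-functions of the characters of the fields `F j` -/
theorem counts {ι : Type} [Fintype ι] (F : ι → IntermediateField ℚ L) {T : ℝ} (hT : 0 < T) :
    {s : ℂ | s ∈ strip T (2 * T) ∧ LL n L F s = 0}.Finite ∧
      cnt (LL n L F) (strip T (2 * T)) =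
        ∑ j, ∑ χ ∈ coset (HF n L (F j)) 1, NN (DirichletCharacter.LFunction χ) T (2 * T) ∧
      ∑ j, ∑ χ ∈ coset (HF n L (F j)) 1, Ns (DirichletCharacter.LFunction χ) T (2 * T) ≤
        cnt (LL n L F) (line T (2 * T)) := by
  set f : (Σ j, YY n L (F j)) → ℂ → ℂ :=
    fun x => DirichletCharacter.LFunction (x.2 : DirichletCharacter ℂ n) with hf
  have hLL : LL n L F = fun z => ∏ x, f x z := by
    ext z
    unfold H300.HW.LL
    rfl
  have hfin : ∀ x, (zset (f x) T (2 * T)).Finite := fun x => finite_zset n _ hT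
  have han : ∀ x, ∀ s : ℂ, 0 < s.im → AnalyticAt ℂ (f x) s := by
    intro x s hs
    rw [hf]
    simp only
    rw [← LF_eq n]
    exact H385.LF_analyticAt n _ (upper_ne_one hs)
  have hord : ∀ x, ∀ s : ℂ, 0 < s.im → analyticOrderAt (f x) s ≠ ⊤ :=
    fun x s hs => order_ne_top n _ hs
  have hN : cnt (fun z => ∏ x, f x z) (strip T (2 * T)) = ∑ x, cnt (f x) (strip T (2 * T)) := by
    refine cnt_prod Finset.univ f (fun x _ s hs => han x s ?_)
      (fun x _ s hs => hord x s ?_) (fun x _ => ?_)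
    · exact hT.trans hs.2.2.1
    · exact hT.trans hs.2.2.1
    · rw [zset_strip]
      exact hfin x
  have hN0 : cnt (fun z => ∏ x, f x z) (line T (2 * T)) = ∑ x, cnt (f x) (line T (2 * T)) := by
    refine cnt_prod Finset.univ f (fun x _ s hs => han x s ?_)
      (fun x _ s hs => hord x s ?_) (fun x _ => ?_)
    · exact hT.trans hs.2.1
    · exact hT.trans hs.2.1
    · exact (hfin x).subset (line_sub _ T)
  have key : ∀ φ : DirichletCharacter ℂ n → ℕ, ∑ x : (Σ j, YY n L (F j)), φ x.2 =
      ∑ j, ∑ χ ∈ coset (HF n L (F j)) 1, φ χ := by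
    intro φ
    rw [Fintype.sum_sigma]
    refine Finset.sum_congr rfl fun j _ => ?_
    symm
    refine Finset.sum_subtype _ (fun χ => ?_) φ
    exact (mem_HF n L (F j) χ).symm
  rw [hLL]
  refine ⟨?_, ?_, ?_⟩
  · have h1 : {s : ℂ | s ∈ strip T (2 * T) ∧ (fun z => ∏ x, f x z) s = 0} ⊆
        ⋃ x, zset (f x) T (2 * T) := by
      rintro s ⟨h1, h5⟩
      obtain ⟨x, -, hx⟩ := Finset.prod_eq_zero_iff.mp h5
      refine Set.mem_iUnion.mpr ⟨x, ?_⟩
      rw [← zset_strip]
      exact ⟨h1, hx⟩
    exact (Set.finite_iUnion hfin).subset h1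
  · rw [hN, ← key]
    refine Finset.sum_congr rfl fun x _ => ?_
    rw [← NN_eq]
  · rw [hN0, ← key]
    exact Finset.sum_le_sum fun x _ => Ns_le (f x) T (2 * T) (hfin x)

end Pool.Agent.X293.LA
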